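import Pool.Agent.H5.BHG.Stmts

set_option autoImplicit false

namespace Pool.BHG

open Filter TMLib Pool.PG Pool.DPG

theorem onw_evb (n : ℕ) : Even n ↔ evb n = true := by
  induction n with
  | zero => simp [evb]
  | succ n ih =>
    have e : evb (n + 1) = !evb n := rfl
    rw [Nat.even_add_one, ih, e]
    cases evb n <;> simp

theorem onw_mem (g : Game) (X : List Bool) (v : ℕ) :
    v ∈ fs g X ↔ v < g.length ∧ X.getD v false = true := by
  unfold fs
  rw [Finset.mem_filter, Finset.mem_range]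

theorem onw_msk (g : Game) (f : ℕ → Bool) (v : ℕ) :
    v ∈ fs g (msk g.length f) ↔ v < g.length ∧ f v = true := by
  rw [(fsb_thm.1 g f).2, Finset.mem_filter, Finset.mem_range]

theorem onw_xp (g : Game) (X : List Bool) (p v : ℕ) :
    v ∈ fs g (xp g X p) ↔ v ∈ fs g X ∧ p ≤ pri g v := by
  unfold xp
  rw [onw_msk, onw_mem, Bool.and_eq_true, decide_eq_true_eq, and_assoc]

theorem onw_xplen (g : Game) (X : List Bool) (p : ℕ) : (xp g X p).length = g.length :=
  (fsb_thm.1 g _).1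

theorem onw_reach (ow : ℕ → Bool) (E : ℕ → ℕ → Prop) (q : Bool) (S U A : Finset ℕ)
    (hA : IsAtr ow E q S U A) (hq : ∀ v ∈ S, ow v = q) :
    ∃ α : ℕ → ℕ, ∀ v ∈ A, ∃ k, α^[k] v ∈ U ∧ (∀ n ≤ k, α^[n] v ∈ A) ∧
      ∀ n < k, E (α^[n] v) (α^[n + 1] v) := by
  obtain ⟨hUA, hAS, ⟨α, ρ, h1, -⟩, -, -⟩ := hA
  refine ⟨α, ?_⟩
  have key : ∀ r : ℕ, ∀ v ∈ A, ρ v = r → ∃ k, α^[k] v ∈ U ∧ (∀ n ≤ k, α^[n] v ∈ A) ∧
      ∀ n < k, E (α^[n] v) (α^[n + 1] v) := by
    intro r
    induction r using Nat.strong_induction_on with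
    | _ r ih =>
      intro v hv hr
      by_cases hU : v ∈ U
      · refine ⟨0, hU, fun n hn => ?_, fun n hn => absurd hn (Nat.not_lt_zero _)⟩
        obtain rfl : n = 0 := by omega
        exact hv
      · obtain ⟨h2, h3, h4⟩ := h1 v hv hU (hq v (hAS hv))
        obtain ⟨k, hk1, hk2, hk3⟩ := ih (ρ (α v)) (hr ▸ h4) (α v) h2 rfl
        refine ⟨k + 1, by rw [Function.iterate_succ_apply]; exact hk1, fun n hn => ?_,
          fun n hn => ?_⟩
        · cases n with
          | zero => exact hv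
          | succ n => rw [Function.iterate_succ_apply]; exact hk2 n (by omega)
        · cases n with
          | zero => exact h3
          | succ n =>
            rw [Function.iterate_succ_apply, Function.iterate_succ_apply]
            exact hk3 n (by omega)
  exact fun v hv => key _ v hv rfl

theorem onw_lasso (S : Finset ℕ) (E : ℕ → ℕ → Prop) (pr : ℕ → ℕ) (x y : ℕ → ℕ) (k l u : ℕ)
    (hxk : x k = u) (hyl : y l = u) (hx : ∀ n ≤ k, x n ∈ S) (hxE : ∀ n < k, E (x n) (x (n + 1)))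
    (hy : ∀ n ≤ l, y n ∈ S ∧ pr u ≤ pr (y n)) (hyE : ∀ n < l, E (y n) (y (n + 1)))
    (hu : E u (y 0)) :
    ∃ z : ℕ → ℕ, z 0 = x 0 ∧ (∀ n, z n ∈ S ∧ E (z n) (z (n + 1))) ∧
      (∃ᶠ n in atTop, pr (z n) = pr u) ∧ (∀ᶠ n in atTop, pr u ≤ pr (z n)) := by
  have hz1 : ∀ j, (if k + 1 + j ≤ k then x (k + 1 + j) else y ((k + 1 + j - (k + 1)) % (l + 1)))
      = y (j % (l + 1)) := by
    intro j
    rw [if_neg (by omega), Nat.add_sub_cancel_left]
  have hr : ∀ j : ℕ, j % (l + 1) ≤ l := fun j => Nat.le_of_lt_succ (Nat.mod_lt j (Nat.succ_pos l))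
  refine ⟨fun n => if n ≤ k then x n else y ((n - (k + 1)) % (l + 1)), by simp, fun n => ?_, ?_, ?_⟩
  · rcases lt_trichotomy n k with h | h | h
    · have h1 : n ≤ k := h.le
      have h2 : n + 1 ≤ k := h
      simp only [if_pos h1, if_pos h2]
      exact ⟨hx n h1, hxE n h⟩
    · subst h
      have h2 : ¬ n + 1 ≤ n := by omega
      simp only [if_pos le_rfl, if_neg h2, Nat.sub_self, Nat.zero_mod]
      exact ⟨hx n le_rfl, by rw [hxk]; exact hu⟩
    · obtain ⟨j, rfl⟩ : ∃ j, n = k + 1 + j := ⟨n - (k + 1), by omega⟩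
      have e2 : k + 1 + j + 1 = k + 1 + (j + 1) := by omega
      simp only [e2, hz1]
      refine ⟨(hy _ (hr j)).1, ?_⟩
      rcases (hr j).lt_or_eq with h1 | h1
      · have e3 : (j + 1) % (l + 1) = j % (l + 1) + 1 := by
          have h4 := Nat.div_add_mod j (l + 1)
          conv_lhs => rw [← h4, add_assoc, Nat.mul_add_mod]
          exact Nat.mod_eq_of_lt (by omega)
        rw [e3]
        exact hyE _ h1
      · have e3 : (j + 1) % (l + 1) = 0 := by
          have h4 := Nat.div_add_mod j (l + 1)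
          conv_lhs => rw [← h4, add_assoc, Nat.mul_add_mod, h1]
          exact Nat.mod_self _
        rw [e3, h1, hyl]
        exact hu
  · rw [Filter.frequently_atTop]
    intro a
    refine ⟨k + 1 + ((l + 1) * a + l), ?_, ?_⟩
    · have : a ≤ (l + 1) * a := Nat.le_mul_of_pos_left a (Nat.succ_pos l)
      omega
    · simp only [hz1]
      rw [Nat.mul_add_mod, Nat.mod_eq_of_lt (Nat.lt_succ_self l), hyl]
  · rw [Filter.eventually_atTop]
    refine ⟨k, fun n hn => ?_⟩
    rcases hn.lt_or_eq with h | h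
    · obtain ⟨j, rfl⟩ : ∃ j, n = k + 1 + j := ⟨n - (k + 1), by omega⟩
      simp only [hz1]
      exact (hy _ (hr j)).2
    · subst h
      simp only [if_pos le_rfl]
      rw [hxk]

theorem onw_path (F : Finset ℕ) (E : ℕ → ℕ → Prop) (x : ℕ → ℕ) (hE : ∀ n, E (x n) (x (n + 1)))
    (a j : ℕ) (h : ∀ i, a ≤ i → i ≤ a + j → x i ∈ F) :
    Relation.ReflTransGen (fun a b => a ∈ F ∧ b ∈ F ∧ E a b) (x a) (x (a + j)) := by
  induction j with
  | zero => exact Relation.ReflTransGen.refl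
  | succ j ih =>
    refine (ih fun i h1 h2 => h i h1 (by omega)).tail ⟨h _ (by omega) (by omega), ?_, ?_⟩
    · exact h _ (by omega) (by omega)
    · exact hE (a + j)

theorem ONW_fwd (g : Game) (q : Bool) (X : List Bool) (W : ℕ → Bool) (σ : ℕ → ℕ) (hX : Sub g X)
    (ho : ∀ v ∈ fs g X, own g v = q)
    (hS : SolS (own g) (pri g) (fun v w => w ∈ suc g v) (fs g X) W σ)
    (v : ℕ) (hv : v ∈ fs g X) (hv1 : v ∈ fs g (one1 q g X)) : W v = q := by
  by_contra hW
  have hA := (atl_thm g q X (msk g.length fun u => X.getD u false && gdc q g X u) hX.1).2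
  obtain ⟨α, hα⟩ := onw_reach _ _ _ _ _ _ hA ho
  have hAX : ∀ a ∈ fs g (att q g X (msk g.length fun u => X.getD u false && gdc q g X u)),
      a ∈ fs g X := fun a ha => hA.2.1 ha
  obtain ⟨k, hk1, hk2, hk3⟩ := hα v hv1
  rw [Finset.mem_inter, onw_msk, Bool.and_eq_true] at hk1
  obtain ⟨huX, -, -, hg⟩ := hk1
  set u := α^[k] v with hu
  unfold gdc at hg
  rw [Bool.and_eq_true, beq_iff_eq, List.any_eq_true] at hg
  obtain ⟨hev, w, hw, hwA⟩ := hg
  have hA2 := (atl_thm g q (xp g X (pri g u)) (msk g.length fun v => decide (v = u))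
    (onw_xplen g X _))
  have hwA' : w ∈ fs g (att q g (xp g X (pri g u)) (msk g.length fun v => decide (v = u))) := by
    rw [onw_mem]
    refine ⟨?_, hwA⟩
    by_contra hlt
    rw [List.getD_eq_default _ _ (by rw [hA2.1]; omega)] at hwA
    exact absurd hwA (by simp)
  obtain ⟨β, hβ⟩ := onw_reach _ _ _ _ _ _ hA2.2 fun a ha => ho a ((onw_xp g X _ a).1 ha).1
  obtain ⟨l, hl1, hl2, hl3⟩ := hβ w hwA'
  rw [Finset.mem_inter, onw_msk, decide_eq_true_eq] at hl1
  obtain ⟨z, hz0, hz1, hz2, hz3⟩ := onw_lasso (fs g X) (fun v w => w ∈ suc g v) (pri g)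
    (fun n => α^[n] v) (fun n => β^[n] w) k l u rfl hl1.2.2 (fun n hn => hAX _ (hk2 n hn)) hk3
    (fun n hn => (onw_xp g X _ _).1 (hA2.2.2.1 (hl2 n hn))) hl3 hw
  obtain ⟨p, hp1, hp2, hp3⟩ := hS.won v hv z hz0 hz1 fun n hn =>
    absurd ((ho _ (hz1 n).1).symm.trans hn).symm hW
  have e : p = pri g u := by
    obtain ⟨n, h1, h2⟩ := (hp1.and_eventually hz3).exists
    obtain ⟨m, h3, h4⟩ := (hz2.and_eventually hp2).exists
    simp only at h1 h2 h3 h4
    omega
  rw [e, onw_evb, hev] at hp3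
  apply hW
  cases q <;> cases h : W v <;> simp_all

theorem ONW_bwd (h1 : ONAStmt) (g : Game) (q : Bool) (X : List Bool) (W : ℕ → Bool) (σ : ℕ → ℕ)
    (hX : Sub g X) (ho : ∀ v ∈ fs g X, own g v = q)
    (hS : SolS (own g) (pri g) (fun v w => w ∈ suc g v) (fs g X) W σ)
    (v : ℕ) (hv : v ∈ fs g X) (hW : W v = q) : v ∈ fs g (one1 q g X) := by
  have hx : ∀ n, σ^[n] v ∈ fs g X := by
    intro n
    induction n with
    | zero => exact hv
    | succ n ih => rw [Function.iterate_succ_apply']; exact (hS.mem _ ih).1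
  have hE : ∀ n, σ^[n + 1] v ∈ suc g (σ^[n] v) := by
    intro n
    rw [Function.iterate_succ_apply']
    exact (hS.mem _ (hx n)).2
  obtain ⟨p, hp1, hp2, hp3⟩ := hS.won v hv (fun n => σ^[n] v) rfl (fun n => ⟨hx n, hE n⟩)
    fun n _ => Function.iterate_succ_apply' _ _ _
  obtain ⟨N, hN⟩ := Filter.eventually_atTop.1 hp2
  have hinf := Nat.frequently_atTop_iff_infinite.1 (hp1.and_eventually (eventually_ge_atTop N))
  obtain ⟨n, hn, m, hm, hnm, he⟩ := hinf.exists_ne_map_eq_of_mapsTo (f := fun n => σ^[n] v)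
    (t := ((fs g X : Finset ℕ) : Set ℕ)) (fun n _ => hx n) (Finset.finite_toSet _)
  wlog hlt : n < m generalizing n m
  · exact this m hm n hn hnm.symm he.symm (by omega)
  simp only [Set.mem_ofPred_eq] at hn hm he
  obtain ⟨hn1, hn2⟩ := hn
  have hu : (fun n => σ^[n] v) n ∈ fs g (xp g X p) := (onw_xp g X p _).2 ⟨hx n, hn1.ge⟩
  have hgd : gdc q g X (σ^[n] v) = true := by
    unfold gdc
    rw [Bool.and_eq_true, beq_iff_eq, List.any_eq_true, hn1]
    constructor
    · rw [onw_evb, hW] at hp3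
      cases q <;> cases h : evb p <;> simp_all
    · refine ⟨σ^[n + 1] v, hE n, ?_⟩
      have h5 : σ^[n + 1] v ∈ fs g (att q g (xp g X p)
          (msk g.length fun w => decide (w = σ^[n] v))) := by
        rw [h1 g q (xp g X p) _ (onw_xplen g X p) (fun a ha => ho a ((onw_xp g X _ a).1 ha).1)]
        refine ⟨σ^[n] v, ?_, hu, ?_⟩
        · have h6 := onw_path (fs g (xp g X p)) (fun a b => b ∈ suc g a) (fun n => σ^[n] v) hE
            (n + 1) (m - (n + 1)) (fun i h7 _ => (onw_xp g X p _).2 ⟨hx i, hN i (by omega)⟩)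

          rw [show n + 1 + (m - (n + 1)) = m by omega, ← he] at h6
          exact h6
        · rw [onw_msk]
          exact ⟨((onw_mem g X _).1 (hx n)).1, by simp⟩
      exact ((onw_mem g _ _).1 h5).2
  unfold one1
  rw [h1 g q X _ hX.1 ho]
  refine ⟨σ^[n] v, ?_, hx n, ?_⟩
  · have h6 := onw_path (fs g X) (fun a b => b ∈ suc g a) (fun n => σ^[n] v) hE 0 n
      (fun i _ _ => hx i)
    simp only [zero_add] at h6
    exact h6
  · rw [onw_msk, Bool.and_eq_true]
    exact ⟨((onw_mem g X _).1 (hx n)).1, ((onw_mem g X _).1 (hx n)).2, hgd⟩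

theorem onw_thm (h1 : ONAStmt) : ONWStmt := by
  intro g q X W σ hX ho hS v hv
  exact ⟨ONW_fwd g q X W σ hX ho hS v hv, ONW_bwd h1 g q X W σ hX ho hS v hv⟩

end Pool.BHG
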